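import Pool.Agent.H174.GP.StA
import Pool.Agent.H174.GP.StC
import Pool.Agent.H174.GP.StP

/-!
# GP AdmGeo: the geometric process is admissible
-/

set_option autoImplicit false

open MeasureTheory ProbabilityTheory Finset

namespace Pool.Agent.H282.GP174

open Pool.Agent.H174.GP

/-- the tail set has positive probability -/
lemma lap_tail_pos (s : ℝ) : 0 < lap.real {x : ℝ | s ≤ |x|} := by
  have h1 : lap {x : ℝ | s ≤ |x|} ≠ 0 := by
    intro h0
    unfold lap at h0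
    rw [withDensity_apply_eq_zero (by fun_prop)] at h0
    have h2 : Set.Ici s ⊆ {x : ℝ | ENNReal.ofReal (Real.exp (-|x|) / 2) ≠ 0} ∩ {x : ℝ | s ≤ |x|} := by
      intro x hx
      refine ⟨?_, ?_⟩
      · show ENNReal.ofReal (Real.exp (-|x|) / 2) ≠ 0
        have h3 : 0 < Real.exp (-|x|) / 2 := by positivity
        exact (ENNReal.ofReal_pos.2 h3).ne'
      · show s ≤ |x|
        exact (Set.mem_Ici.1 hx).trans (le_abs_self x)
    have h3 := measure_mono_null h2 h0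
    rw [Real.volume_Ici] at h3
    exact ENNReal.top_ne_zero h3
  exact ENNReal.toReal_pos h1 (measure_ne_top _ _)

theorem gp_admgeo (h1 : S_L1) (h2 : S_Tq) : Pool.Agent.H174.GP.S_AdmGeo := by
  intro s2 hs2
  obtain ⟨m2, m4, -, hint, -, -⟩ := h1
  have i2 := hint 2
  have i4 := hint 4
  obtain ⟨E, hE⟩ : ∃ E : Set ℝ, E = {x : ℝ | 2 * s2 ≤ |x|} := ⟨_, rfl⟩
  have hEm : MeasurableSet E := by
    rw [hE]
    exact measurableSet_le measurable_const continuous_abs.measurable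
  have hEp : 0 < lap.real E := by
    rw [hE]
    exact lap_tail_pos _
  refine ⟨s2 ^ 2 * lap.real E, by positivity, 2 * (2 + s2 ^ 2), by positivity,
    8 * (24 + s2 ^ 4), by positivity, ?_⟩
  intro σ d hσ hd
  -- the facts for one coordinate
  have main : ∀ j ∈ Finset.Icc 1 d, 0 < σ * (j : ℝ) ∧ σ * (j : ℝ) ≤ s2 := by
    intro j hj
    rw [Finset.mem_Icc] at hj
    have hj1 : (1 : ℝ) ≤ j := by exact_mod_cast hj.1
    have hj2 : (j : ℝ) ≤ d := by exact_mod_cast hj.2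
    refine ⟨by positivity, ?_⟩
    exact (mul_le_mul_of_nonneg_left hj2 hσ.le).trans hd
  have up : ∀ a : ℝ, 0 < a → a ≤ s2 → ∀ x : ℝ, |(Tq a x : ℝ)| ≤ (|x| + s2) / a := by
    intro a ha has x
    have h3 := (h2 a ha).2.2.2.2 x
    have h4 : |(Tq a x : ℝ)| ≤ |x| / a + 1 := by
      have e : (Tq a x : ℝ) = ((Tq a x : ℝ) - x / a) + x / a := by ring
      rw [e]
      refine (abs_add_le _ _).trans ?_
      rw [abs_div, abs_of_pos ha]
      linarith
    refine h4.trans ?_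
    rw [add_div]
    have h5 : 1 ≤ s2 / a := by
      rw [le_div_iff₀ ha]
      linarith
    linarith
  have up2 : ∀ a : ℝ, 0 < a → a ≤ s2 → ∀ x : ℝ, (Tq a x : ℝ) ^ 2 ≤ 2 * (x ^ 2 + s2 ^ 2) / a ^ 2 := by
    intro a ha has x
    have h3 := pow_le_pow_left₀ (abs_nonneg _) (up a ha has x) 2
    rw [sq_abs, div_pow] at h3
    refine h3.trans ?_
    apply div_le_div_of_nonneg_right _ (by positivity)
    have h4 := sq_abs x
    nlinarith [sq_nonneg (|x| - s2)]
  have up4 : ∀ a : ℝ, 0 < a → a ≤ s2 → ∀ x : ℝ, (Tq a x : ℝ) ^ 4 ≤ 8 * (x ^ 4 + s2 ^ 4) / a ^ 4 := by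
    intro a ha has x
    have h3 := pow_le_pow_left₀ (by positivity) (up2 a ha has x) 2
    have e1 : ((Tq a x : ℝ) ^ 2) ^ 2 = (Tq a x : ℝ) ^ 4 := by ring
    have e2 : (2 * (x ^ 2 + s2 ^ 2) / a ^ 2) ^ 2 = 4 * (x ^ 2 + s2 ^ 2) ^ 2 / a ^ 4 := by
      rw [div_pow]
      congr 1 <;> ring
    rw [e1, e2] at h3
    refine h3.trans ?_
    apply div_le_div_of_nonneg_right _ (by positivity)
    nlinarith [sq_nonneg (x ^ 2 - s2 ^ 2)]
  have low : ∀ a : ℝ, 0 < a → a ≤ s2 → ∀ x ∈ E, s2 ^ 2 / a ^ 2 ≤ (Tq a x : ℝ) ^ 2 := by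
    intro a ha has x hx
    have hx' : 2 * s2 ≤ |x| := by
      rw [hE] at hx
      exact hx
    have h3 := (h2 a ha).2.2.2.2 x
    have h4 : |x| / a - 1 ≤ |(Tq a x : ℝ)| := by
      have e : |x| / a = |x / a| := by rw [abs_div, abs_of_pos ha]
      rw [e]
      have h5 : |x / a| ≤ |(Tq a x : ℝ)| + |x / a - (Tq a x : ℝ)| := by
        have e2 : x / a = (Tq a x : ℝ) + (x / a - (Tq a x : ℝ)) := by ring
        calc |x / a| = |(Tq a x : ℝ) + (x / a - (Tq a x : ℝ))| := by rw [← e2]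
          _ ≤ _ := abs_add_le _ _
      rw [abs_sub_comm] at h5
      linarith
    have h5 : s2 / a ≤ |(Tq a x : ℝ)| := by
      refine le_trans ?_ h4
      have h6 : 1 ≤ s2 / a := by
        rw [le_div_iff₀ ha]
        linarith
      have h7 : 2 * (s2 / a) ≤ |x| / a := by
        rw [← mul_div_assoc]
        exact div_le_div_of_nonneg_right hx' ha.le
      linarith
    have h6 := pow_le_pow_left₀ (by positivity) h5 2
    rwa [sq_abs, div_pow] at h6
  have meas : ∀ a : ℝ, 0 < a → ∀ n : ℕ, AEStronglyMeasurable (fun x : ℝ => (Tq a x : ℝ) ^ n) lap := by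
    intro a ha n
    have h3 : Measurable (fun x : ℝ => (Tq a x : ℝ)) :=
      measurable_from_top.comp (h2 a ha).2.2.2.1
    exact (h3.pow_const n).aestronglyMeasurable
  have hb2 : ∀ a : ℝ, Integrable (fun x : ℝ => 2 * (x ^ 2 + s2 ^ 2) / a ^ 2) lap := by
    intro a
    have e : (fun x : ℝ => 2 * (x ^ 2 + s2 ^ 2) / a ^ 2) =
        fun x : ℝ => (2 / a ^ 2) * x ^ 2 + 2 * s2 ^ 2 / a ^ 2 := by
      funext x
      ring
    rw [e]
    exact Integrable.add (i2.const_mul (2 / a ^ 2)) (integrable_const (2 * s2 ^ 2 / a ^ 2))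
  have hb4 : ∀ a : ℝ, Integrable (fun x : ℝ => 8 * (x ^ 4 + s2 ^ 4) / a ^ 4) lap := by
    intro a
    have e : (fun x : ℝ => 8 * (x ^ 4 + s2 ^ 4) / a ^ 4) =
        fun x : ℝ => (8 / a ^ 4) * x ^ 4 + 8 * s2 ^ 4 / a ^ 4 := by
      funext x
      ring
    rw [e]
    exact Integrable.add (i4.const_mul (8 / a ^ 4)) (integrable_const (8 * s2 ^ 4 / a ^ 4))
  have int2 : ∀ a : ℝ, 0 < a → a ≤ s2 → Integrable (fun x : ℝ => (Tq a x : ℝ) ^ 2) lap := by
    intro a ha has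
    refine Integrable.mono' (g := fun x => 2 * (x ^ 2 + s2 ^ 2) / a ^ 2) (hb2 a) (meas a ha 2)
      (Filter.Eventually.of_forall fun x => ?_)
    rw [Real.norm_eq_abs, abs_of_nonneg (sq_nonneg _)]
    exact up2 a ha has x
  have int4 : ∀ a : ℝ, 0 < a → a ≤ s2 → Integrable (fun x : ℝ => (Tq a x : ℝ) ^ 4) lap := by
    intro a ha has
    refine Integrable.mono' (g := fun x => 8 * (x ^ 4 + s2 ^ 4) / a ^ 4) (hb4 a) (meas a ha 4)
      (Filter.Eventually.of_forall fun x => ?_)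
    rw [Real.norm_eq_abs, abs_of_nonneg (by positivity)]
    exact up4 a ha has x
  have sc : ∀ (j : ℕ) (n : ℕ) (c : ℝ), c * (1 / σ) ^ n / (j : ℝ) ^ n = c / (σ * (j : ℝ)) ^ n := by
    intro j n c
    rw [one_div, inv_pow, mul_pow, ← div_eq_mul_inv, div_div]
  refine ⟨by positivity, ?_, ?_, ?_, ?_, ?_, ?_⟩
  · intro j hj x
    show (Tq (σ * (j : ℝ)) (-x) : ℝ) = - (Tq (σ * (j : ℝ)) x : ℝ)
    rw [(h2 _ (main j hj).1).2.1 x]
    push_cast
    ring
  · intro j hj x y hxy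
    show (Tq (σ * (j : ℝ)) x : ℝ) ≤ (Tq (σ * (j : ℝ)) y : ℝ)
    exact_mod_cast (h2 _ (main j hj).1).2.2.1 hxy
  · intro j hj
    obtain ⟨ha, has⟩ := main j hj
    rw [sc]
    have h3 : Integrable (E.indicator (fun _ => s2 ^ 2 / (σ * (j : ℝ)) ^ 2)) lap :=
      (integrable_const _).indicator hEm
    have h4 : ∫ x, E.indicator (fun _ => s2 ^ 2 / (σ * (j : ℝ)) ^ 2) x ∂lap ≤
        ∫ x, (Tq (σ * (j : ℝ)) x : ℝ) ^ 2 ∂lap := by
      apply integral_mono h3 (int2 _ ha has)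
      intro x
      by_cases hx : x ∈ E
      · simp only [Set.indicator_of_mem hx]
        exact low _ ha has x hx
      · simp only [Set.indicator_of_notMem hx]
        exact sq_nonneg _
    rw [integral_indicator_const _ hEm, smul_eq_mul] at h4
    refine le_trans (le_of_eq ?_) h4
    ring
  · intro j hj
    obtain ⟨ha, has⟩ := main j hj
    rw [sc]
    have h4 : ∫ x, (Tq (σ * (j : ℝ)) x : ℝ) ^ 2 ∂lap ≤
        ∫ x, 2 * (x ^ 2 + s2 ^ 2) / (σ * (j : ℝ)) ^ 2 ∂lap :=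
      integral_mono (int2 _ ha has) (hb2 _) (fun x => up2 _ ha has x)
    refine h4.trans (le_of_eq ?_)
    rw [integral_div, integral_const_mul, integral_add i2 (integrable_const _), m2]
    simp
  · intro j hj
    obtain ⟨ha, has⟩ := main j hj
    rw [sc]
    have h4 : ∫ x, (Tq (σ * (j : ℝ)) x : ℝ) ^ 4 ∂lap ≤
        ∫ x, 8 * (x ^ 4 + s2 ^ 4) / (σ * (j : ℝ)) ^ 4 ∂lap :=
      integral_mono (int4 _ ha has) (hb4 _) (fun x => up4 _ ha has x)
    refine h4.trans (le_of_eq ?_)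
    rw [integral_div, integral_const_mul, integral_add i4 (integrable_const _), m4]
    simp
  · intro j hj
    obtain ⟨ha, has⟩ := main j hj
    exact int4 _ ha has

end Pool.Agent.H282.GP174
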