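import Pool.Agent.H174.GP.StP

/-!
# GP pz: the Paley–Zygmund inequality for sums of odd functions of the Laplace coordinates
-/

set_option autoImplicit false

open MeasureTheory ProbabilityTheory Finset

namespace Pool.Agent.H282.GP174

open Pool.Agent.H174.GP

/-- the sign change preserves the law -/
lemma PP_neg (h2 : Measure.map (fun x : ℝ => -x) lap = lap) :
    Measure.map (fun (ω : ℕ → ℝ) j => -(ω j)) PP = PP := by
  unfold PP
  have h := Measure.infinitePi_map_pi (μ := fun _ : ℕ => lap) (f := fun (_ : ℕ) (x : ℝ) => -x)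
    (fun _ => measurable_neg)
  rw [h]
  simp only [h2]

theorem gp_pz (h1 : S_var) (h2 : S_L3) : Pool.Agent.H174.GP.S_pz := by
  intro J φ κ hκ hm hodd hint hfour
  obtain ⟨e1, e2, e3⟩ := h1 J φ hm hodd hint
  obtain ⟨V, hV⟩ : ∃ V : ℝ, V = ∑ j ∈ J, ∫ x, (φ j x) ^ 2 ∂lap := ⟨_, rfl⟩
  rw [← hV] at e1 e3 hfour ⊢
  have hV0 : 0 ≤ V := by
    rw [hV]
    exact Finset.sum_nonneg (fun j _ => integral_nonneg (fun x => sq_nonneg _))
  obtain ⟨S, hS⟩ : ∃ S : (ℕ → ℝ) → ℝ, S = fun ω => ∑ j ∈ J, φ j (ω j) := ⟨_, rfl⟩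
  have hSω : ∀ ω, ∑ j ∈ J, φ j (ω j) = S ω := fun ω => by rw [hS]
  simp only [hSω] at e1 e2 e3 ⊢
  have hSm : Measurable S := by
    rw [hS]
    exact Finset.measurable_sum J (fun j hj => (hm j hj).comp (measurable_pi_apply j))
  have hSneg : ∀ ω : ℕ → ℝ, S (fun j => -(ω j)) = -(S ω) := by
    intro ω
    rw [hS]
    simp only
    rw [← Finset.sum_neg_distrib]
    exact Finset.sum_congr rfl (fun j hj => hodd j hj (ω j))
  have e4 : (∫ ω, S ω ^ 4 ∂PP) ≤ (3 + κ) * V ^ 2 := by linarith
  -- the event for the square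
  obtain ⟨A, hA⟩ : ∃ A : Set (ℕ → ℝ), A = {ω | V / 4 ≤ S ω ^ 2} := ⟨_, rfl⟩
  have hAm : MeasurableSet A := by
    rw [hA]
    exact measurableSet_le measurable_const (hSm.pow_const 2)
  have hPA : (9 / 16) / (3 + κ) ≤ PP.real A := by
    rcases hV0.eq_or_lt with h0 | h0
    · have hAu : A = Set.univ := by
        rw [hA]
        ext ω
        simp only [Set.mem_setOf_eq, Set.mem_univ, iff_true]
        rw [← h0, zero_div]
        exact sq_nonneg _
      rw [hAu, probReal_univ, div_le_one (by linarith)]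
      linarith
    · have hS2 : Integrable (fun ω => S ω ^ 2) PP := by
        refine Integrable.mono' (g := fun ω => 1 + S ω ^ 4) ((integrable_const _).add e2)
          (hSm.pow_const 2).aestronglyMeasurable (Filter.Eventually.of_forall fun ω => ?_)
        rw [Real.norm_eq_abs, abs_of_nonneg (sq_nonneg _)]
        nlinarith [sq_nonneg (S ω ^ 2 - 1), sq_nonneg (S ω ^ 2)]
      obtain ⟨l, hl⟩ : ∃ l : ℝ, l = (3 / 4) / ((3 + κ) * V) := ⟨_, rfl⟩
      have hl0 : 0 < l := by rw [hl]; positivity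
      have hind : Integrable (A.indicator (fun _ => (1 / (2 * l) : ℝ))) PP :=
        (integrable_const _).indicator hAm
      have key : ∀ ω, S ω ^ 2 ≤ V / 4 + l / 2 * S ω ^ 4 + A.indicator (fun _ => (1 / (2 * l) : ℝ)) ω := by
        intro ω
        by_cases hω : ω ∈ A
        · rw [Set.indicator_of_mem hω]
          have h5 : S ω ^ 2 ≤ l / 2 * S ω ^ 4 + 1 / (2 * l) := by
            have h6 : l / 2 * S ω ^ 4 + 1 / (2 * l) - S ω ^ 2 =
                (l * S ω ^ 2 - 1) ^ 2 / (2 * l) := by
              field_simp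
              ring
            have h7 : 0 ≤ (l * S ω ^ 2 - 1) ^ 2 / (2 * l) := by positivity
            linarith
          linarith
        · rw [Set.indicator_of_notMem hω, add_zero]
          have h5 : S ω ^ 2 < V / 4 := by
            rw [hA, Set.mem_setOf_eq, not_le] at hω
            exact hω
          have h6 : 0 ≤ l / 2 * S ω ^ 4 := by positivity
          linarith
      have h5 : V ≤ V / 4 + l / 2 * (∫ ω, S ω ^ 4 ∂PP) + PP.real A * (1 / (2 * l)) := by
        calc V = ∫ ω, S ω ^ 2 ∂PP := e1.symm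
          _ ≤ ∫ ω, (V / 4 + l / 2 * S ω ^ 4 + A.indicator (fun _ => (1 / (2 * l) : ℝ)) ω) ∂PP :=
              integral_mono hS2 (((integrable_const _).add (e2.const_mul _)).add hind) key
          _ = _ := by
              rw [integral_add (f := fun ω => V / 4 + l / 2 * S ω ^ 4)
                ((integrable_const _).add (e2.const_mul _)) hind,
                integral_add (integrable_const _) (e2.const_mul _), integral_const_mul,
                integral_indicator_const _ hAm]
              simp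
      have h6 : l / 2 * (∫ ω, S ω ^ 4 ∂PP) ≤ l / 2 * ((3 + κ) * V ^ 2) :=
        mul_le_mul_of_nonneg_left e4 (by positivity)
      have h7 : l / 2 * ((3 + κ) * V ^ 2) = 3 / 8 * V := by
        rw [hl]
        field_simp
        ring
      have h8 : 3 / 8 * V ≤ PP.real A * (1 / (2 * l)) := by linarith
      have h9 : PP.real A * (1 / (2 * l)) = PP.real A * ((3 + κ) * V * (2 / 3)) := by
        rw [hl]
        field_simp
        ring
      rw [h9] at h8
      rw [div_le_iff₀ (by linarith)]
      have h10 : (PP.real A * (3 + κ) * (2 / 3) - 3 / 8) * V ≥ 0 := by nlinarith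
      have h11 : 0 ≤ PP.real A * (3 + κ) * (2 / 3) - 3 / 8 := by
        by_contra hcon
        push Not at hcon
        nlinarith
      linarith
  -- symmetry
  obtain ⟨A1, hA1⟩ : ∃ A1 : Set (ℕ → ℝ), A1 = {ω | Real.sqrt V / 2 ≤ S ω} := ⟨_, rfl⟩
  obtain ⟨A2, hA2⟩ : ∃ A2 : Set (ℕ → ℝ), A2 = {ω | Real.sqrt V / 2 ≤ -(S ω)} := ⟨_, rfl⟩
  have hA1m : MeasurableSet A1 := by
    rw [hA1]
    exact measurableSet_le measurable_const hSm
  have hsub : A ⊆ A1 ∪ A2 := by
    intro ω hω
    rw [hA, Set.mem_setOf_eq] at hω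
    rw [hA1, hA2, Set.mem_union, Set.mem_setOf_eq, Set.mem_setOf_eq]
    have h5 : Real.sqrt V / 2 ≤ |S ω| := by
      apply le_of_sq_le_sq _ (abs_nonneg _)
      rw [sq_abs, div_pow, Real.sq_sqrt hV0]
      linarith
    rcases le_total 0 (S ω) with h6 | h6
    · left
      rwa [abs_of_nonneg h6] at h5
    · right
      rwa [abs_of_nonpos h6] at h5
  have hA2e : PP.real A2 = PP.real A1 := by
    have h5 : A2 = (fun (ω : ℕ → ℝ) j => -(ω j)) ⁻¹' A1 := by
      ext ω
      rw [hA1, hA2, Set.mem_preimage, Set.mem_setOf_eq, Set.mem_setOf_eq, hSneg]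
    have hmeas : Measurable (fun (ω : ℕ → ℝ) j => -(ω j)) :=
      measurable_pi_lambda _ (fun j => (measurable_pi_apply j).neg)
    unfold Measure.real
    rw [h5, ← Measure.map_apply hmeas hA1m, PP_neg h2.1]
  have h5 : PP.real A ≤ PP.real A1 + PP.real A2 :=
    (measureReal_mono hsub).trans (measureReal_union_le _ _)
  rw [hA2e] at h5
  rw [← hA1]
  have h6 : (9 / 16) / (3 + κ) = 2 * ((9 / 32) / (3 + κ)) := by ring
  rw [h6] at hPA
  linarith

end Pool.Agent.H282.GP174
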